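import Pool.Agent.Q158.HT.Three

/-!
# Base exchange on collapsible hypertrees: hypertrees with a common remainder

Two `d`-hypertrees on `n` vertices which collapse to the same set `R` of `(d - 1)`-faces are joined by
at most `C(n - 1, d)` exchanges through `d`-collapsible `d`-hypertrees.

Proof. A collapse of `T` to `R` is a choice function from the `(d - 1)`-faces not in `R` onto `T`, together
with an ordering. If `T` and `T'` collapse to the same `R`, then the choice function of `T` can be changed
into the one of `T'` face by face, in the order of `T'`; all the hybrids are choice functions of
collapsible hypertrees.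
-/

set_option autoImplicit false

namespace Pool.Agent.Results.MP_797bdc_co.CommonRemainder

open Pool.Agent.Q158.HT

theorem result :
    ∀ (d n : ℕ), 0 < n → ∀ R T T' : Finset (Finset (Fin n)), Hypertree d T → Hypertree d T' →
      CollapsesTo R (allFaces n d) T → CollapsesTo R (allFaces n d) T' →
        ∃ m ≤ (n - 1).choose d, Joined d m T T' :=
  fun _ _ hn _ _ _ hT hT' h h' => common_remainder hn hT hT' h h'

end Pool.Agent.Results.MP_797bdc_co.CommonRemainder
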