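import Pool.Agent.Q158.HT.Three

/-!
# Base exchange on collapsible hypertrees: the diameter in dimension two

Any two 2-collapsible 2-hypertrees on `n` vertices are joined by at most `2 C(n - 1, 2)` exchanges
through 2-collapsible 2-hypertrees.

Proof. Every 2-collapsible 2-hypertree collapses to a connected graph `R` (a spanning tree), and the star
of all triples containing a given vertex collapses to each of these; two hypertrees collapsing to the same
`R` are joined by at most `C(n - 1, 2)` exchanges.
-/

set_option autoImplicit false

namespace Pool.Agent.Results.MP_797bdc_co.DimTwoDiameter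

open Pool.Agent.Q158.HT

theorem result :
    ∀ n : ℕ, 0 < n → ∀ T T' : Finset (Finset (Fin n)), Hypertree 2 T → Hypertree 2 T' →
      Collapsible T → Collapsible T' → ∃ m ≤ 2 * (n - 1).choose 2, Joined 2 m T T' :=
  fun _ hn _ _ hT hT' h h' => two hn hT hT' h h'

end Pool.Agent.Results.MP_797bdc_co.DimTwoDiameter
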