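import Pool.Agent.Q158.HT.Three

/-!
# Base exchange on collapsible hypertrees: at most `d + 3` vertices

If `d + 1 ≤ n ≤ d + 3`, any two `d`-collapsible `d`-hypertrees on `n` vertices are joined by at most
`C(n - 1, d)` exchanges through `d`-collapsible `d`-hypertrees.

Proof. For `n = d + 3` the complements of the faces not in `T` are the edges of a tree, and every `T`
collapses to the star of all the `(d - 1)`-faces containing a given vertex; two hypertrees collapsing to the
same set of `(d - 1)`-faces are joined by at most `C(n - 1, d)` exchanges.
-/

set_option autoImplicit false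

namespace Pool.Agent.Results.MP_797bdc_co.FewVertices

open Pool.Agent.Q158.HT

theorem result :
    ∀ d n : ℕ, d + 1 ≤ n → n ≤ d + 3 → ∀ T T' : Finset (Finset (Fin n)), Hypertree d T →
      Hypertree d T' → Collapsible T → Collapsible T' →
        ∃ m ≤ (n - 1).choose d, Joined d m T T' :=
  fun _ _ hd hnd _ _ hT hT' h h' => small hd hnd hT hT' h h'

end Pool.Agent.Results.MP_797bdc_co.FewVertices
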